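import Pool.Agent.H43.G.R_seed8.Y957.VK.Stm

set_option autoImplicit false

namespace Pool.Agent.Y235.VK

open Finset Pool.Agent.Y957.VK
open scoped ComplexConjugate

noncomputable def es {G α : Type} [AddCommGroup G] (A : Finset α) (h : α → G)
    (ψ : AddChar G ℂ) : ℂ := ∑ x ∈ A, ψ (h x)

theorem map_sum' {G ι : Type} [AddCommGroup G] (S : Finset ι) (g : ι → G)
    (ψ : AddChar G ℂ) : ψ (∑ i ∈ S, g i) = ∏ i ∈ S, ψ (g i) := by
  classical
  induction S using Finset.induction_on with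
  | empty => simp
  | insert a S ha ih => rw [Finset.sum_insert ha, Finset.prod_insert ha, AddChar.map_add_eq_mul, ih]

theorem es_pi {G α : Type} [AddCommGroup G] (B : Finset α) (g : α → G) (s : ℕ)
    (ψ : AddChar G ℂ) :
    es (Fintype.piFinset fun _ : Fin s => B) (fun u => ∑ i, g (u i)) ψ = es B g ψ ^ s := by
  unfold es
  rw [Finset.sum_pow']
  refine Finset.sum_congr rfl fun u _ => ?_
  exact map_sum' _ _ _

theorem count_eq {G α β : Type} [AddCommGroup G] [Fintype G] [DecidableEq G] (A : Finset α)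
    (h : α → G) (U : Finset β) (k : β → G) :
    (((((A ×ˢ A) ×ˢ (U ×ˢ U)).filter fun z => h z.1.1 + k z.2.1 = h z.1.2 + k z.2.2).card : ℝ)) *
      Fintype.card G = ∑ ψ : AddChar G ℂ, ‖es A h ψ‖ ^ 2 * ‖es U k ψ‖ ^ 2 := by
  have key : ((((((A ×ˢ A) ×ˢ (U ×ˢ U)).filter
      fun z => h z.1.1 + k z.2.1 = h z.1.2 + k z.2.2).card : ℝ) * Fintype.card G : ℝ) : ℂ) =
      ((∑ ψ : AddChar G ℂ, ‖es A h ψ‖ ^ 2 * ‖es U k ψ‖ ^ 2 : ℝ) : ℂ) := by
    push_cast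
    rw [Finset.card_filter]
    push_cast
    rw [Finset.sum_mul]
    have h1 : ∀ z ∈ (A ×ˢ A) ×ˢ (U ×ˢ U),
        (if h z.1.1 + k z.2.1 = h z.1.2 + k z.2.2 then (1 : ℂ) else 0) * (Fintype.card G : ℂ) =
        ∑ ψ : AddChar G ℂ, (ψ (h z.1.1) * conj (ψ (h z.1.2))) *
          (ψ (k z.2.1) * conj (ψ (k z.2.2))) := by
      intro z _
      have h2 : ∀ ψ : AddChar G ℂ, (ψ (h z.1.1) * conj (ψ (h z.1.2))) *
          (ψ (k z.2.1) * conj (ψ (k z.2.2))) =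
          ψ ((h z.1.1 + k z.2.1) - (h z.1.2 + k z.2.2)) := by
        intro ψ
        rw [sub_eq_add_neg, AddChar.map_add_eq_mul, AddChar.map_neg_eq_conj,
          AddChar.map_add_eq_mul, AddChar.map_add_eq_mul, map_mul]
        ring
      rw [Finset.sum_congr rfl fun ψ _ => h2 ψ, AddChar.sum_apply_eq_ite]
      by_cases h3 : h z.1.1 + k z.2.1 = h z.1.2 + k z.2.2
      · rw [if_pos h3, if_pos (sub_eq_zero.mpr h3), one_mul]
      · rw [if_neg h3, if_neg (sub_ne_zero.mpr h3), zero_mul]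
    rw [Finset.sum_congr rfl h1, Finset.sum_comm]
    refine Finset.sum_congr rfl fun ψ _ => ?_
    have h4 : ∀ {γ : Type} (W : Finset γ) (m : γ → G),
        ((‖es W m ψ‖ : ℂ)) ^ 2 = ∑ z ∈ W ×ˢ W, ψ (m z.1) * conj (ψ (m z.2)) := by
      intro γ W m
      rw [← Complex.mul_conj', Finset.sum_product]
      unfold es
      rw [map_sum, Finset.sum_mul_sum]
    rw [h4 A h, h4 U k, Finset.sum_mul_sum, Finset.sum_product]
  exact_mod_cast key

theorem hol_abs {G α β : Type} [AddCommGroup G] [Fintype G] [DecidableEq G] (A : Finset α)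
    (h : α → G) (B : Finset β) (g : β → G) (c : β → ℕ) (p s : ℕ) (hs : 1 ≤ s)
    (hc : ∀ b ∈ B, c b < p) :
    (((A ×ˢ A) ×ˢ ((Fintype.piFinset fun _ : Fin s => B) ×ˢ
      (Fintype.piFinset fun _ : Fin s => B))).filter
      fun z => h z.1.1 + (∑ i, g (z.2.1 i)) = h z.1.2 + ∑ i, g (z.2.2 i)).card ≤
    p ^ (2 * s - 1) * ∑ a ∈ Finset.range p,
      (((A ×ˢ A) ×ˢ ((Fintype.piFinset fun _ : Fin s => B.filter fun b => c b = a) ×ˢ
      (Fintype.piFinset fun _ : Fin s => B.filter fun b => c b = a))).filter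
      fun z => h z.1.1 + (∑ i, g (z.2.1 i)) = h z.1.2 + ∑ i, g (z.2.2 i)).card := by
  have hG : (0 : ℝ) < Fintype.card G := by exact_mod_cast Fintype.card_pos
  have hC : ∀ B' : Finset β, ((((A ×ˢ A) ×ˢ ((Fintype.piFinset fun _ : Fin s => B') ×ˢ
      (Fintype.piFinset fun _ : Fin s => B'))).filter
      fun z => h z.1.1 + (∑ i, g (z.2.1 i)) = h z.1.2 + ∑ i, g (z.2.2 i)).card : ℝ) *
        Fintype.card G = ∑ ψ : AddChar G ℂ, ‖es A h ψ‖ ^ 2 * ‖es B' g ψ‖ ^ (2 * s) := by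
    intro B'
    rw [count_eq A h (Fintype.piFinset fun _ : Fin s => B') (fun u : Fin s → β => ∑ i, g (u i))]
    refine Finset.sum_congr rfl fun ψ _ => ?_
    rw [es_pi B' g s ψ, norm_pow, ← pow_mul, mul_comm s 2]
  have main : ((((A ×ˢ A) ×ˢ ((Fintype.piFinset fun _ : Fin s => B) ×ˢ
      (Fintype.piFinset fun _ : Fin s => B))).filter
      fun z => h z.1.1 + (∑ i, g (z.2.1 i)) = h z.1.2 + ∑ i, g (z.2.2 i)).card : ℝ) *
        Fintype.card G ≤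
      ((p : ℝ) ^ (2 * s - 1) * ∑ a ∈ Finset.range p,
      ((((A ×ˢ A) ×ˢ ((Fintype.piFinset fun _ : Fin s => B.filter fun b => c b = a) ×ˢ
      (Fintype.piFinset fun _ : Fin s => B.filter fun b => c b = a))).filter
      fun z => h z.1.1 + (∑ i, g (z.2.1 i)) = h z.1.2 + ∑ i, g (z.2.2 i)).card : ℝ)) *
        Fintype.card G := by
    rw [mul_assoc, Finset.sum_mul, hC, Finset.sum_congr rfl (fun a _ => hC _)]
    rw [Finset.sum_comm, Finset.mul_sum]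
    refine Finset.sum_le_sum fun ψ _ => ?_
    rw [← Finset.mul_sum, mul_left_comm]
    refine mul_le_mul_of_nonneg_left ?_ (by positivity)
    have h1 : es B g ψ = ∑ a ∈ Finset.range p, es (B.filter fun b => c b = a) g ψ := by
      unfold es
      exact (Finset.sum_fiberwise_of_maps_to (fun b hb => Finset.mem_range.mpr (hc b hb)) _).symm
    have h2 : ‖es B g ψ‖ ≤ ∑ a ∈ Finset.range p, ‖es (B.filter fun b => c b = a) g ψ‖ := by
      rw [h1]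
      exact norm_sum_le _ _
    have h3 := pow_sum_le_card_mul_sum_pow (s := Finset.range p)
      (f := fun a => ‖es (B.filter fun b => c b = a) g ψ‖) (fun _ _ => norm_nonneg _) (2 * s - 1)
    rw [Finset.card_range, Nat.sub_add_cancel (by omega)] at h3
    exact le_trans (pow_le_pow_left₀ (norm_nonneg _) h2 _) h3
  have := le_of_mul_le_mul_right main hG
  exact_mod_cast this

theorem sum_lt {m X r j : ℕ} {x : Fin m → ℕ} (hx : x ∈ Tu m X) (hj : j ∈ Finset.Icc 1 r) :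
    ∑ i, x i ^ j ≤ m * (X + 1) ^ r := by
  unfold Tu at hx
  rw [Fintype.mem_piFinset] at hx
  rw [Finset.mem_Icc] at hj
  calc ∑ i, x i ^ j ≤ ∑ _i : Fin m, (X + 1) ^ r := by
        refine Finset.sum_le_sum fun i _ => ?_
        have h1 := Finset.mem_Icc.mp (hx i)
        calc x i ^ j ≤ (X + 1) ^ j := Nat.pow_le_pow_left (by omega) _
          _ ≤ (X + 1) ^ r := Nat.pow_le_pow_right (by omega) hj.2
    _ = m * (X + 1) ^ r := by simp

/-- the group -/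
abbrev Gr (r Q : ℕ) : Type := {j // j ∈ Finset.Icc 1 r} → ZMod Q

/-- the vector of powers -/
def pw (r Q : ℕ) (n : ℕ) : Gr r Q := fun j => ((n ^ (j : ℕ) : ℕ) : ZMod Q)

theorem eq_iff {s r X Q : ℕ} (hQ : (r + s) * (X + 1) ^ r < Q) {x y : Fin r → ℕ}
    {u w : Fin s → ℕ} (hx : x ∈ Tu r X)
    (hy : y ∈ Tu r X) (hu : u ∈ Tu s X) (hw : w ∈ Tu s X) :
    (∑ i, pw r Q (x i)) + (∑ i, pw r Q (u i)) = (∑ i, pw r Q (y i)) + (∑ i, pw r Q (w i)) ↔
    ∀ j ∈ Finset.Icc 1 r, ∑ i, x i ^ j + ∑ i, u i ^ j = ∑ i, y i ^ j + ∑ i, w i ^ j := by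
  have h1 : ∀ (a : Fin r → ℕ) (b : Fin s → ℕ) (j : {j // j ∈ Finset.Icc 1 r}),
      ((∑ i, pw r Q (a i)) + ∑ i, pw r Q (b i)) j =
        ((∑ i, a i ^ (j : ℕ) + ∑ i, b i ^ (j : ℕ) : ℕ) : ZMod Q) := by
    intro a b j
    rw [Pi.add_apply, Finset.sum_apply, Finset.sum_apply, Nat.cast_add, Nat.cast_sum, Nat.cast_sum]
    rfl
  have h2 : ∀ (a : Fin r → ℕ) (b : Fin s → ℕ), a ∈ Tu r X → b ∈ Tu s X →
      ∀ j ∈ Finset.Icc 1 r, ∑ i, a i ^ j + ∑ i, b i ^ j < Q := by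
    intro a b ha hb j hj
    refine lt_of_le_of_lt ?_ hQ
    rw [add_mul]
    exact add_le_add (sum_lt ha hj) (sum_lt hb hj)
  constructor
  · intro h j hj
    have h5 := congrFun h ⟨j, hj⟩
    rw [h1, h1, ZMod.natCast_eq_natCast_iff', Nat.mod_eq_of_lt (h2 x u hx hu j hj),
      Nat.mod_eq_of_lt (h2 y w hy hw j hj)] at h5
    exact h5
  · intro h
    funext j
    rw [h1, h1, h j j.2]

theorem hol : S_HOL := by
  intro s r p X hs hr hp
  obtain ⟨Q, hQ⟩ : ∃ Q, (r + s) * (X + 1) ^ r < Q := ⟨_, Nat.lt_succ_self _⟩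
  have hQ0 : NeZero Q := ⟨(lt_of_le_of_lt (Nat.zero_le _) hQ).ne'⟩
  have hB : BB s r p X =
      (((((Tu r X).filter fun x => ∀ i j, i ≠ j → x i % p ≠ x j % p) ×ˢ
        ((Tu r X).filter fun x => ∀ i j, i ≠ j → x i % p ≠ x j % p)) ×ˢ
        ((Fintype.piFinset fun _ : Fin s => Finset.Icc 1 X) ×ˢ
      (Fintype.piFinset fun _ : Fin s => Finset.Icc 1 X))).filter
      fun z => (fun x : Fin r → ℕ => ∑ i, pw r Q (x i)) z.1.1 + (∑ i, pw r Q (z.2.1 i)) =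
        (fun x : Fin r → ℕ => ∑ i, pw r Q (x i)) z.1.2 + ∑ i, pw r Q (z.2.2 i)).card := by
    unfold BB
    congr 1
    ext z
    obtain ⟨⟨x, y⟩, ⟨u, w⟩⟩ := z
    rw [Finset.mem_filter, Finset.mem_filter, Finset.mem_product, Finset.mem_product,
      Finset.mem_product, Finset.mem_product, Finset.mem_product, Finset.mem_product,
      Finset.mem_filter, Finset.mem_filter]
    constructor
    · rintro ⟨⟨⟨h1, h2⟩, ⟨h3, h4⟩⟩, h5, h6, h7⟩
      exact ⟨⟨⟨⟨h1, h5⟩, ⟨h2, h6⟩⟩, ⟨h3, h4⟩⟩, (eq_iff hQ h1 h2 h3 h4).mpr h7⟩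
    · rintro ⟨⟨⟨⟨h1, h5⟩, ⟨h2, h6⟩⟩, ⟨h3, h4⟩⟩, h7⟩
      exact ⟨⟨⟨h1, h2⟩, ⟨h3, h4⟩⟩, h5, h6, (eq_iff hQ h1 h2 h3 h4).mp h7⟩
  have hA : ∀ a, BA s r p X a =
      (((((Tu r X).filter fun x => ∀ i j, i ≠ j → x i % p ≠ x j % p) ×ˢ
        ((Tu r X).filter fun x => ∀ i j, i ≠ j → x i % p ≠ x j % p)) ×ˢ
        ((Fintype.piFinset fun _ : Fin s => (Finset.Icc 1 X).filter fun n => n % p = a) ×ˢ
      (Fintype.piFinset fun _ : Fin s => (Finset.Icc 1 X).filter fun n => n % p = a))).filter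
      fun z => (fun x : Fin r → ℕ => ∑ i, pw r Q (x i)) z.1.1 + (∑ i, pw r Q (z.2.1 i)) =
        (fun x : Fin r → ℕ => ∑ i, pw r Q (x i)) z.1.2 + ∑ i, pw r Q (z.2.2 i)).card := by
    intro a
    have hU : ∀ u : Fin s → ℕ, u ∈ (Fintype.piFinset fun _ : Fin s =>
        (Finset.Icc 1 X).filter fun n => n % p = a) ↔ u ∈ Tu s X ∧ ∀ i, u i % p = a := by
      intro u
      unfold Tu
      rw [Fintype.mem_piFinset, Fintype.mem_piFinset, ← forall_and]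
      exact forall_congr' fun i => Finset.mem_filter
    unfold BA
    congr 1
    ext z
    obtain ⟨⟨x, y⟩, ⟨u, w⟩⟩ := z
    rw [Finset.mem_filter, Finset.mem_filter, Finset.mem_product, Finset.mem_product,
      Finset.mem_product, Finset.mem_product, Finset.mem_product, Finset.mem_product,
      Finset.mem_filter, Finset.mem_filter, hU, hU]
    constructor
    · rintro ⟨⟨⟨h1, h2⟩, ⟨h3, h4⟩⟩, ⟨h5, h6, h8, h9⟩, h7⟩
      exact ⟨⟨⟨⟨h1, h5⟩, ⟨h2, h6⟩⟩, ⟨⟨h3, h8⟩, ⟨h4, h9⟩⟩⟩, (eq_iff hQ h1 h2 h3 h4).mpr h7⟩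
    · rintro ⟨⟨⟨⟨h1, h5⟩, ⟨h2, h6⟩⟩, ⟨⟨h3, h8⟩, ⟨h4, h9⟩⟩⟩, h7⟩
      exact ⟨⟨⟨h1, h2⟩, ⟨h3, h4⟩⟩, ⟨h5, h6, h8, h9⟩, (eq_iff hQ h1 h2 h3 h4).mp h7⟩
  rw [hB, Finset.sum_congr rfl fun a _ => hA a]
  exact hol_abs _ (fun x : Fin r → ℕ => ∑ i, pw r Q (x i)) (Finset.Icc 1 X) (pw r Q)
    (fun n => n % p) p s hs (fun n _ => Nat.mod_lt _ hp.pos)

end Pool.Agent.Y235.VK
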